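import Mathlib

namespace Pool.Agent.X194.QH

open Topology Filter

/-- A map `t : H → G` of topological groups is a *quasihomomorphism*: `t 1 = 1`, the map
`(h₁,h₂) ↦ t h₁ * t h₂ * (t (h₁ * h₂))⁻¹` is continuous at `(1,1)`, and for every `y` the map
`h ↦ t y * t h * (t y)⁻¹ * (t (y * h * y⁻¹))⁻¹` is continuous at `1`. -/
def IsQuasiHom {G H : Type*} [Group G] [Group H] [TopologicalSpace G] [TopologicalSpace H]
    (t : H → G) : Prop :=
  t 1 = 1 ∧
  ContinuousAt (fun p : H × H => t p.1 * t p.2 * (t (p.1 * p.2))⁻¹) (1, 1) ∧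
  ∀ y : H, ContinuousAt (fun h : H => t y * t h * (t y)⁻¹ * (t (y * h * y⁻¹))⁻¹) 1

/-- the triadic rationals -/
def D : AddSubgroup ℝ where
  carrier := {x | ∃ m : ℤ, ∃ n : ℕ, x * 3 ^ n = m}
  zero_mem' := ⟨0, 0, by simp⟩
  add_mem' := by
    rintro a b ⟨m, n, h⟩ ⟨m', n', h'⟩
    refine ⟨m * 3 ^ n' + m' * 3 ^ n, n + n', ?_⟩
    push_cast
    rw [← h, ← h', pow_add]
    ring
  neg_mem' := by
    rintro a ⟨m, n, h⟩
    refine ⟨-m, n, ?_⟩
    push_cast
    rw [← h]
    ring

theorem D_dense (r ε : ℝ) (hε : 0 < ε) : ∃ d ∈ D, |d - r| < ε := by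
  obtain ⟨n, hn⟩ := exists_pow_lt_of_lt_one hε (show (1 / 3 : ℝ) < 1 by norm_num)
  refine ⟨(⌊r * 3 ^ n⌋ : ℝ) / 3 ^ n, ⟨⌊r * 3 ^ n⌋, n, by field_simp⟩, ?_⟩
  have h3 : (0 : ℝ) < 3 ^ n := by positivity
  have h1 := Int.floor_le (r * 3 ^ n)
  have h2 := Int.lt_floor_add_one (r * 3 ^ n)
  have h4 : (1 / 3 : ℝ) ^ n * 3 ^ n = 1 := by
    rw [← mul_pow]; norm_num
  have h5 : 1 < ε * 3 ^ n := by
    calc (1 : ℝ) = (1 / 3) ^ n * 3 ^ n := h4.symm
      _ < ε * 3 ^ n := by exact mul_lt_mul_of_pos_right hn h3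
  rw [abs_lt]
  constructor
  · rw [lt_sub_iff_add_lt, lt_div_iff₀ h3]
    nlinarith
  · rw [sub_lt_iff_lt_add, div_lt_iff₀ h3]
    nlinarith

theorem half_not_mem (k : ℤ) (hk : ¬ Even k) : (0 : ℝ) - k / 2 ∉ D := by
  rintro ⟨m, n, h⟩
  have h1 : (-(k * 3 ^ n) : ℝ) = 2 * m := by
    rw [← h]; ring
  have h2 : (-(k * 3 ^ n) : ℤ) = 2 * m := by exact_mod_cast h1
  have h3 : Even (k * 3 ^ n : ℤ) := by
    rw [← even_neg, h2]; exact even_two_mul m
  rw [Int.even_mul] at h3
  rcases h3 with h3 | h3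
  · exact hk h3
  · have : ¬ Even (3 ^ n : ℤ) := by
      rw [Int.not_even_iff_odd]
      exact Odd.pow (by decide)
    exact this h3

/-- finitely supported functions `ℝ → ZMod 2`, with the topology of pointwise convergence -/
def H0 : AddSubgroup (ℝ → ZMod 2) where
  carrier := {f | (Function.support f).Finite}
  zero_mem' := by simp
  add_mem' := by
    intro a b ha hb
    exact (ha.union hb).subset (Function.support_add a b)
  neg_mem' := by
    intro a ha
    simpa using ha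

/-- the sum of the values -/
noncomputable def s (h : H0) : ZMod 2 := ∑ᶠ i, h.1 i

theorem s_add (a b : H0) : s (a + b) = s a + s b := by
  unfold s
  exact finsum_add_distrib a.2 b.2

theorem s_zero : s 0 = 0 := by
  unfold s
  simp

theorem s_neg (a : H0) : s (-a) = - s a := by
  have := s_add a (-a)
  rw [add_neg_cancel, s_zero] at this
  exact (neg_eq_of_add_eq_zero_right this.symm).symm

/-- the extension -/
def G0 : AddSubgroup (ℝ × H0) where
  carrier := {x | ∃ k : ℤ, (k : ZMod 2) = s x.2 ∧ x.1 - k / 2 ∈ D}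
  zero_mem' := ⟨0, by simp [s_zero], by simp [D.zero_mem]⟩
  add_mem' := by
    rintro a b ⟨k, h1, h2⟩ ⟨k', h1', h2'⟩
    refine ⟨k + k', ?_, ?_⟩
    · push_cast
      rw [h1, h1']
      exact (s_add _ _).symm
    · have := D.add_mem h2 h2'
      convert this using 1
      push_cast
      simp only [Prod.fst_add]
      ring
  neg_mem' := by
    rintro a ⟨k, h1, h2⟩
    refine ⟨-k, ?_, ?_⟩
    · push_cast
      rw [h1]
      exact (s_neg _).symm
    · have := D.neg_mem h2
      convert this using 1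
      push_cast
      simp only [Prod.fst_neg]
      ring

/-- the projection -/
def f0 : G0 →+ H0 := (AddMonoidHom.snd ℝ H0).comp G0.subtype

theorem exists_lift (h : H0) (r ε : ℝ) (hε : 0 < ε) : ∃ g : G0, f0 g = h ∧ |g.1.1 - r| < ε := by
  obtain ⟨k, hk⟩ : ∃ k : ℤ, (k : ZMod 2) = s h := ZMod.intCast_surjective (s h)
  obtain ⟨d, hd, hdr⟩ := D_dense (r - k / 2) ε hε
  refine ⟨⟨(d + k / 2, h), k, hk, ?_⟩, rfl, ?_⟩
  · simpa using hd
  · have : d + k / 2 - r = d - (r - k / 2) := by ring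
    rw [this]
    exact hdr

theorem f0_cont : Continuous f0 := continuous_snd.comp continuous_subtype_val

theorem f0_surj : Function.Surjective f0 := fun h => by
  obtain ⟨g, hg, -⟩ := exists_lift h 0 1 one_pos
  exact ⟨g, hg⟩

theorem f0_open : IsOpenMap f0 := by
  rw [isOpenMap_iff_nhds_le]
  intro a V hV
  rw [mem_map, nhds_subtype, mem_comap] at hV
  obtain ⟨T, hT, hTV⟩ := hV
  rw [mem_nhds_prod_iff] at hT
  obtain ⟨u, hu, v, hv, huv⟩ := hT
  obtain ⟨ε, hε, hball⟩ := Metric.mem_nhds_iff.1 hu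
  refine mem_of_superset hv ?_
  intro h hh
  obtain ⟨g, hg, hgr⟩ := exists_lift h a.1.1 ε hε
  have hmem : g ∈ (Subtype.val ⁻¹' T : Set G0) := by
    apply huv
    refine ⟨hball ?_, ?_⟩
    · rw [Metric.mem_ball, Real.dist_eq]; exact hgr
    · have : g.1.2 = h := hg
      rw [this]; exact hh
  have := hTV hmem
  rw [Set.mem_preimage, hg] at this
  exact this

theorem nhd (W : Set H0) (hW : W ∈ 𝓝 (0 : H0)) :
    ∃ F : Set ℝ, F.Finite ∧ ∀ h : H0, (∀ i ∈ F, h.1 i = 0) → h ∈ W := by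
  rw [nhds_subtype, mem_comap] at hW
  obtain ⟨T, hT, hTW⟩ := hW
  rw [nhds_pi, Filter.mem_pi] at hT
  obtain ⟨F, hF, t, ht, htT⟩ := hT
  refine ⟨F, hF, fun h hh => hTW (htT ?_)⟩
  intro i hi
  rw [hh i hi]
  exact mem_of_mem_nhds (ht i)

/-- basis vector -/
noncomputable def e (i : ℝ) : H0 := ⟨Pi.single i 1, by
  refine (Set.finite_singleton i).subset ?_
  exact Pi.support_single_subset⟩

theorem e_apply_ne (i j : ℝ) (h : j ≠ i) : (e i).1 j = 0 := by
  show (Pi.single i 1 : ℝ → ZMod 2) j = 0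
  exact Pi.single_eq_of_ne h _

theorem s_e (i : ℝ) : s (e i) = 1 := by
  unfold s
  rw [finsum_eq_single _ i (fun j hj => e_apply_ne i j hj)]
  show (Pi.single i 1 : ℝ → ZMod 2) i = 1
  exact Pi.single_eq_same _ _

theorem e_add (i : ℝ) : e i + e i = 0 := by
  apply Subtype.ext
  funext j
  show (Pi.single i 1 : ℝ → ZMod 2) j + (Pi.single i 1 : ℝ → ZMod 2) j = 0
  generalize (Pi.single i 1 : ℝ → ZMod 2) j = x
  revert x
  decide

/-- the multiplicative version of the projection -/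
def f1 : Multiplicative G0 →* Multiplicative H0 := AddMonoidHom.toMultiplicative f0

theorem no_section (t : Multiplicative H0 → Multiplicative G0) (ht : ∀ h, f1 (t h) = h) :
    ¬ IsQuasiHom t := by
  rintro ⟨t1, tc, -⟩
  set g : Multiplicative H0 × Multiplicative H0 → ℝ := fun p =>
    (Multiplicative.toAdd (t p.1 * t p.2 * (t (p.1 * p.2))⁻¹) : G0).1.1 with hg
  have hgc : ContinuousAt g (1, 1) := by
    have hc : Continuous (fun x : Multiplicative G0 => (Multiplicative.toAdd x : G0).1.1) :=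
      continuous_fst.comp (continuous_subtype_val.comp continuous_toAdd)
    exact ContinuousAt.comp (f := fun p : Multiplicative H0 × Multiplicative H0 =>
      t p.1 * t p.2 * (t (p.1 * p.2))⁻¹) hc.continuousAt tc
  have hg1 : g (1, 1) = 0 := by
    simp only [hg, mul_one, t1, inv_one]
    rfl
  have hn : ∀ n : ℕ, ∃ F : Set ℝ, F.Finite ∧ ∀ h : H0, (∀ i ∈ F, h.1 i = 0) →
      |g (Multiplicative.ofAdd h, Multiplicative.ofAdd h)| < 1 / ((n : ℝ) + 1) := by
    intro n
    have hpos : (0 : ℝ) < 1 / ((n : ℝ) + 1) := by positivity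
    have h1 : {p | |g p| < 1 / ((n : ℝ) + 1)} ∈ 𝓝 ((1, 1) : Multiplicative H0 × Multiplicative H0) := by
      have := Metric.continuousAt_iff'.1 hgc _ hpos
      rw [hg1] at this
      filter_upwards [this] with p hp
      simpa [Real.dist_eq] using hp
    rw [mem_nhds_prod_iff] at h1
    obtain ⟨u, hu, v, hv, huv⟩ := h1
    have hu' : {h : H0 | Multiplicative.ofAdd h ∈ u ∩ v} ∈ 𝓝 (0 : H0) := by
      have hc : Continuous (fun h : H0 => Multiplicative.ofAdd h) := continuous_ofAdd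
      exact hc.continuousAt.preimage_mem_nhds (inter_mem hu hv)
    obtain ⟨F, hF, hFW⟩ := nhd _ hu'
    refine ⟨F, hF, fun h hh => ?_⟩
    have := hFW h hh
    exact huv (Set.mk_mem_prod this.1 this.2)
  choose F hF hFg using hn
  have hcount : (⋃ n, F n).Countable := Set.countable_iUnion fun n => (hF n).countable
  obtain ⟨i, hi⟩ : ∃ i : ℝ, i ∉ ⋃ n, F n := by
    by_contra hcon
    push Not at hcon
    have : (Set.univ : Set ℝ).Countable := hcount.mono (fun x _ => hcon x)
    exact Cardinal.not_countable_real this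
  have hsmall : ∀ n : ℕ, |g (Multiplicative.ofAdd (e i), Multiplicative.ofAdd (e i))| < 1 / ((n : ℝ) + 1) := by
    intro n
    apply hFg n
    intro j hj
    apply e_apply_ne
    rintro rfl
    exact hi (Set.mem_iUnion.2 ⟨n, hj⟩)
  have hzero : g (Multiplicative.ofAdd (e i), Multiplicative.ofAdd (e i)) = 0 := by
    by_contra hne
    obtain ⟨n, hn⟩ := exists_nat_one_div_lt (abs_pos.2 hne)
    exact absurd (hsmall n) (not_lt.2 hn.le)
  have hee : Multiplicative.ofAdd (e i) * Multiplicative.ofAdd (e i) = 1 := by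
    rw [← ofAdd_add, e_add]; rfl
  have h2 : (Multiplicative.toAdd (t (Multiplicative.ofAdd (e i))) : G0).1.1 = 0 := by
    simp only [hg, hee, t1, inv_one, toAdd_mul, toAdd_one, add_zero] at hzero
    have : (Multiplicative.toAdd (t (Multiplicative.ofAdd (e i))) : G0).1.1
      + (Multiplicative.toAdd (t (Multiplicative.ofAdd (e i))) : G0).1.1 = 0 := hzero
    linarith
  obtain ⟨k, hk, hkD⟩ := (Multiplicative.toAdd (t (Multiplicative.ofAdd (e i))) : G0).2
  have h3 : (Multiplicative.toAdd (t (Multiplicative.ofAdd (e i))) : G0).1.2 = e i := by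
    have := ht (Multiplicative.ofAdd (e i))
    exact congrArg Multiplicative.toAdd this
  rw [h3, s_e] at hk
  rw [h2] at hkD
  refine half_not_mem k ?_ hkD
  intro hev
  have h4 : (k : ZMod 2) = 0 := by
    rw [ZMod.intCast_zmod_eq_zero_iff_dvd]
    exact_mod_cast even_iff_two_dvd.1 hev
  rw [hk] at h4
  exact absurd h4 (by decide)

end Pool.Agent.X194.QH
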